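import Pool.Agent.helper68.B2.Defs
import Pool.Agent.helper15.B2.FC

/-! # MP_b2b189_gt: commuting flows, bracket condition only along the curves (b2:W7) -/

set_option autoImplicit false

namespace Pool.Agent.helper68.B2

open scoped ContDiff Topology Matrix
open Matrix Set Filter

open Pool.Agent.helper25.B2 (Sol FL_compact FL_aux1 sol_lipschitz FC_gron)

/-- extension of a curve on `[0,b]` to a curve with two-sided derivatives -/
theorem W7_ext {E : Type*} [NormedAddCommGroup E] [NormedSpace ℝ E] (f f' : ℝ → E) (b : ℝ)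
    (hb : 0 < b) (hf : ∀ s ∈ Icc 0 b, HasDerivWithinAt f (f' s) (Icc 0 b) s) :
    ∃ g : ℝ → E, (∀ s ∈ Icc 0 b, g s = f s) ∧ ∀ s ∈ Icc 0 b, HasDerivAt g (f' s) s := by
  classical
  let g : ℝ → E := fun s => if s < 0 then f 0 + s • f' 0 else
    if s ≤ b then f s else f b + (s - b) • f' b
  have hg : ∀ s ∈ Icc 0 b, g s = f s := by
    intro s hs
    simp only [g]
    rw [if_neg (not_lt.2 hs.1), if_pos hs.2]
  refine ⟨g, hg, ?_⟩
  have hin : ∀ s ∈ Icc 0 b, HasDerivWithinAt g (f' s) (Icc 0 b) s := fun s hs =>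
    (hf s hs).congr (fun y hy => hg y hy) (hg s hs)
  have hleft : HasDerivWithinAt g (f' 0) (Iic 0) 0 := by
    have h1 : HasDerivWithinAt (fun s : ℝ => f 0 + s • f' 0) (f' 0) (Iic 0) 0 := by
      have := ((hasDerivAt_id (0 : ℝ)).smul_const (f' 0)).const_add (f 0)
      simpa using this.hasDerivWithinAt
    refine h1.congr ?_ ?_
    · intro y hy
      rcases eq_or_lt_of_le (show y ≤ 0 from hy) with h | h
      · subst h; rw [hg 0 ⟨le_rfl, hb.le⟩]; simp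
      · simp only [g]; rw [if_pos h]
    · rw [hg 0 ⟨le_rfl, hb.le⟩]; simp
  have hright : HasDerivWithinAt g (f' b) (Ici b) b := by
    have h1 : HasDerivWithinAt (fun s : ℝ => f b + (s - b) • f' b) (f' b) (Ici b) b := by
      have := (((hasDerivAt_id b).sub_const b).smul_const (f' b)).const_add (f b)
      simpa using this.hasDerivWithinAt
    refine h1.congr ?_ ?_
    · intro y hy
      rcases eq_or_lt_of_le (show b ≤ y from hy) with h | h
      · subst h; rw [hg b ⟨hb.le, le_rfl⟩]; simp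
      · simp only [g]; rw [if_neg (not_lt.2 (hb.le.trans h.le)), if_neg (not_le.2 h)]
    · rw [hg b ⟨hb.le, le_rfl⟩]; simp
  intro s hs
  rw [← hasDerivWithinAt_univ, ← Iic_union_Ici (a := s)]
  refine HasDerivWithinAt.union ?_ ?_
  · rcases eq_or_lt_of_le hs.1 with h | h
    · rw [← h]; exact hleft
    · exact (hin s hs).mono_of_mem_nhdsWithin (Icc_mem_nhdsLE_of_mem ⟨h, hs.2⟩)
  · rcases eq_or_lt_of_le hs.2 with h | h
    · rw [h]; exact hright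
    · exact (hin s hs).mono_of_mem_nhdsWithin (Icc_mem_nhdsGE_of_mem ⟨hs.1, h⟩)

/-- uniform differentiability along a compact set -/
theorem W7_unif {E F : Type*} [NormedAddCommGroup E] [NormedSpace ℝ E]
    [NormedAddCommGroup F] [NormedSpace ℝ F] {X : E → F} {Ω K : Set E} (hΩ : IsOpen Ω)
    (hX : ContDiffOn ℝ 1 X Ω) (hK : IsCompact K) (hKΩ : K ⊆ Ω) {c : ℝ} (hc : 0 < c) :
    ∃ ε > 0, ∀ x ∈ K, ∀ y : E, ‖y - x‖ < ε →
      y ∈ Ω ∧ ‖X y - X x - fderiv ℝ X x (y - x)‖ ≤ c * ‖y - x‖ := by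
  refine hK.induction_on (p := fun s => ∃ ε > 0, ∀ x ∈ s,
    ∀ y : E, ‖y - x‖ < ε → y ∈ Ω ∧ ‖X y - X x - fderiv ℝ X x (y - x)‖ ≤ c * ‖y - x‖) ?_ ?_ ?_ ?_
  · exact ⟨1, one_pos, by simp⟩
  · rintro s t hst ⟨ε, hε, h⟩
    exact ⟨ε, hε, fun x hx => h x (hst hx)⟩
  · rintro s t ⟨ε, hε, h⟩ ⟨ε', hε', h'⟩
    refine ⟨min ε ε', lt_min hε hε', ?_⟩
    rintro x (hx | hx) y hy
    · exact h x hx y (hy.trans_le (min_le_left _ _))
    · exact h' x hx y (hy.trans_le (min_le_right _ _))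
  · intro x hx
    have hcont : ContinuousOn (fderiv ℝ X) Ω := hX.continuousOn_fderiv_of_isOpen hΩ (by norm_num)
    have hcx : ContinuousAt (fderiv ℝ X) x := hcont.continuousAt (hΩ.mem_nhds (hKΩ hx))
    have hball : ∀ᶠ y in 𝓝 x, ‖fderiv ℝ X y - fderiv ℝ X x‖ < c / 2 := by
      have := Metric.continuousAt_iff'.1 hcx (c / 2) (by positivity)
      filter_upwards [this] with y hy
      rwa [dist_eq_norm] at hy
    obtain ⟨r, hr, hr2⟩ := Metric.mem_nhds_iff.1 (inter_mem hball (hΩ.mem_nhds (hKΩ hx)))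
    refine ⟨Metric.ball x (r / 2),
      mem_nhdsWithin_of_mem_nhds (Metric.ball_mem_nhds x (by positivity)), r / 2, by positivity, ?_⟩
    intro z hz y hy
    have hz1 : z ∈ Metric.ball x r := by
      rw [Metric.mem_ball] at hz ⊢; linarith
    have hy1 : y ∈ Metric.ball x r := by
      rw [Metric.mem_ball] at hz ⊢
      have := dist_triangle y z x
      rw [dist_eq_norm y z] at this
      linarith
    refine ⟨(hr2 hy1).2, ?_⟩
    refine Convex.norm_image_sub_le_of_norm_hasFDerivWithin_le' (f := X)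
        (f' := fun w => fderiv ℝ X w) (φ := fderiv ℝ X z) (s := Metric.ball x r)
        (x := z) (y := y) (C := c) (𝕜 := ℝ)
        (fun w hw => ((hX.differentiableOn (by norm_num)).differentiableAt
          (hΩ.mem_nhds (hr2 hw).2)).hasFDerivAt.hasFDerivWithinAt) (fun w hw => ?_)
        (convex_ball _ _) hz1 hy1
    have e1 : ‖fderiv ℝ X w - fderiv ℝ X x‖ < c / 2 := (hr2 hw).1
    have e2 : ‖fderiv ℝ X z - fderiv ℝ X x‖ < c / 2 := (hr2 hz1).1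
    have e3 : fderiv ℝ X w - fderiv ℝ X z
        = (fderiv ℝ X w - fderiv ℝ X x) - (fderiv ℝ X z - fderiv ℝ X x) := by abel
    rw [e3]
    refine (norm_sub_le _ _).trans ?_
    linarith

theorem W7_comm {E : Type*} [NormedAddCommGroup E] [NormedSpace ℝ E] [FiniteDimensional ℝ E]
    (Ω : Set E) (hΩ : IsOpen Ω) (Y T : E → E) (hY : ContDiffOn ℝ 1 Y Ω)
    (hT : ContDiffOn ℝ 1 T Ω) (P : ℝ → ℝ → E) (b t₀ ε : ℝ) (hb : 0 < b) (hε : 0 < ε)
    (hP : ∀ t ∈ Ioo (t₀ - ε) (t₀ + ε), ∀ s ∈ Icc 0 b, P s t ∈ Ω ∧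
      HasDerivWithinAt (fun r => P r t) (T (P s t)) (Icc 0 b) s)
    (hbr : ∀ t ∈ Ioo (t₀ - ε) (t₀ + ε), ∀ s ∈ Icc 0 b,
      fderiv ℝ T (P s t) (Y (P s t)) = fderiv ℝ Y (P s t) (T (P s t)))
    (h0 : ∀ t ∈ Ioo (t₀ - ε) (t₀ + ε), HasDerivAt (fun r => P 0 r) (Y (P 0 t)) t) :
    ∀ s ∈ Icc 0 b, HasDerivAt (fun r => P s r) (Y (P s t₀)) t₀ := by
  classical
  have ht₀ : t₀ ∈ Ioo (t₀ - ε) (t₀ + ε) := ⟨by linarith, by linarith⟩
  have hT1 : ∀ x ∈ Ω, ContDiffAt ℝ 1 T x := fun x hx => hT.contDiffAt (hΩ.mem_nhds hx)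
  have hY1 : ∀ x ∈ Ω, DifferentiableAt ℝ Y x := fun x hx =>
    (hY.differentiableOn (by norm_num)).differentiableAt (hΩ.mem_nhds hx)
  -- the extended curves
  have hex : ∀ t : ℝ, ∃ g : ℝ → E, t ∈ Ioo (t₀ - ε) (t₀ + ε) →
      (∀ s ∈ Icc 0 b, g s = P s t) ∧ Sol T Ω g (Icc 0 b) := by
    intro t
    by_cases ht : t ∈ Ioo (t₀ - ε) (t₀ + ε)
    · obtain ⟨g, hg1, hg2⟩ := W7_ext (fun r => P r t) (fun s => T (P s t)) b hb
        (fun s hs => (hP t ht s hs).2)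
      refine ⟨g, fun _ => ⟨hg1, fun s hs => ⟨?_, ?_⟩⟩⟩
      · rw [hg1 s hs]; exact (hP t ht s hs).1
      · rw [hg1 s hs]; exact hg2 s hs
    · exact ⟨fun _ => 0, fun h => absurd h ht⟩
  choose H hH using hex
  have h0b : (0 : ℝ) ∈ Icc 0 b := ⟨le_rfl, hb.le⟩
  obtain ⟨hγP, hγ⟩ := hH t₀ ht₀
  set γ := H t₀ with hγdef
  obtain ⟨hK, hKΩ⟩ := FL_compact hγ
  obtain ⟨δ₁, hδ₁, C₁, hC₁, h1⟩ := sol_lipschitz hΩ hT1 le_rfl hb.le hγ
  obtain ⟨ε₃, hε₃, L, hL, hLip⟩ := FL_aux1 hΩ hT1 hK hKΩ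
  -- bound for the derivative of `T` on the compact curve
  have hcontT : ContinuousOn (fderiv ℝ T) Ω := hT.continuousOn_fderiv_of_isOpen hΩ (by norm_num)
  obtain ⟨C₂, hC₂⟩ : ∃ C₂ : ℝ, ∀ x ∈ γ '' Icc 0 b, ‖fderiv ℝ T x‖ ≤ C₂ :=
    hK.exists_bound_of_continuousOn (hcontT.mono hKΩ)
  have hC₂0 : 0 ≤ C₂ := (norm_nonneg _).trans (hC₂ (γ 0) (mem_image_of_mem γ h0b))
  -- Lipschitz at the initial time
  set C₀ := ‖Y (γ 0)‖ + 1 with hC₀
  have hC₀pos : 0 < C₀ := by positivity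
  have hp : HasDerivAt (fun r => P 0 r) (Y (γ 0)) t₀ := by
    rw [hγP 0 h0b]; exact h0 t₀ ht₀
  have hp' := (hasDerivAt_iff_isLittleO.1 hp)
  have hnear : ∀ᶠ r in 𝓝 t₀, r ∈ Ioo (t₀ - ε) (t₀ + ε) := isOpen_Ioo.mem_nhds ht₀
  have hlip0 : ∀ᶠ r in 𝓝 t₀, ‖H r 0 - γ 0‖ ≤ C₀ * |r - t₀| := by
    have h3 := hp'.def (c := 1) one_pos
    filter_upwards [h3, hnear] with r hr hr'
    rw [Real.norm_eq_abs] at hr
    have e0 : H r 0 = P 0 r := (hH r hr').1 0 h0b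
    have e0' : γ 0 = P 0 t₀ := hγP 0 h0b
    have e1 : H r 0 - γ 0 = (P 0 r - P 0 t₀ - (r - t₀) • Y (γ 0)) + (r - t₀) • Y (γ 0) := by
      rw [e0, e0']; abel
    rw [e1]
    refine (norm_add_le _ _).trans ?_
    rw [norm_smul, Real.norm_eq_abs, hC₀]
    have : ‖P 0 r - P 0 t₀ - (r - t₀) • Y (γ 0)‖ ≤ 1 * |r - t₀| := hr
    nlinarith
  intro s₀ hs₀
  set M := Real.exp ((C₂ + 1) * (b - 0)) with hM
  have hMpos : 0 < M := Real.exp_pos _
  rw [hasDerivAt_iff_isLittleO, Asymptotics.isLittleO_iff]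
  intro c hc
  -- constants
  set c₁ := c / (2 * M * (C₁ * C₀ + 1)) with hc₁
  have hden : 0 < 2 * M * (C₁ * C₀ + 1) := by positivity
  have hc₁pos : 0 < c₁ := by positivity
  obtain ⟨ε₂, hε₂, h2⟩ := W7_unif hΩ hT hK hKΩ hc₁pos
  have hs1 : ∀ᶠ r in 𝓝 t₀, C₀ * |r - t₀| < δ₁ := by
    have : Tendsto (fun r => C₀ * |r - t₀|) (𝓝 t₀) (𝓝 (C₀ * |t₀ - t₀|)) := by
      apply Continuous.tendsto; fun_prop
    simp only [sub_self, abs_zero, mul_zero] at this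
    exact this.eventually_lt_const hδ₁
  have hs2 : ∀ᶠ r in 𝓝 t₀, C₁ * (C₀ * |r - t₀|) < ε₂ := by
    have : Tendsto (fun r => C₁ * (C₀ * |r - t₀|)) (𝓝 t₀) (𝓝 (C₁ * (C₀ * |t₀ - t₀|))) := by
      apply Continuous.tendsto; fun_prop
    simp only [sub_self, abs_zero, mul_zero] at this
    exact this.eventually_lt_const hε₂
  have hs3 := hp'.def (c := c / (2 * M)) (by positivity)
  filter_upwards [hnear, hlip0, hs1, hs2, hs3] with r hr hlr hr1 hr2 hr3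
  obtain ⟨hHP, hHS⟩ := hH r hr
  have hlip : ∀ s ∈ Icc 0 b, ‖H r s - γ s‖ ≤ C₁ * (C₀ * |r - t₀|) := by
    intro s hs
    exact (h1 (H r) hHS (hlr.trans_lt hr1) s hs).trans (by gcongr)
  have key := FC_gron (f := fun s => H r s - γ s - (r - t₀) • Y (γ s))
      (f' := fun s => T (H r s) - T (γ s) - (r - t₀) • fderiv ℝ Y (γ s) (T (γ s)))
      (a := 0) (b := b) (L := C₂) (κ := c₁ * (C₁ * (C₀ * |r - t₀|))) hC₂0 (by positivity)
      le_rfl hb.le ?_ ?_ s₀ hs₀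
  · have e1 : H r s₀ - γ s₀ = P s₀ r - P s₀ t₀ := by rw [hHP s₀ hs₀, hγP s₀ hs₀]
    have e2 : H r 0 - γ 0 = P 0 r - P 0 t₀ := by rw [hHP 0 h0b, hγP 0 h0b]
    simp only [e1, e2] at key
    rw [Real.norm_eq_abs] at hr3
    have e4 : Y (P s₀ t₀) = Y (γ s₀) := by rw [hγP s₀ hs₀]
    rw [e4, Real.norm_eq_abs]
    refine key.trans ?_
    have e3 : ‖P 0 r - P 0 t₀ - (r - t₀) • Y (γ 0)‖ ≤ c / (2 * M) * |r - t₀| := hr3
    calc M * (‖P 0 r - P 0 t₀ - (r - t₀) • Y (γ 0)‖ + c₁ * (C₁ * (C₀ * |r - t₀|)))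
        ≤ M * (c / (2 * M) * |r - t₀| + c₁ * (C₁ * (C₀ * |r - t₀|))) := by gcongr
      _ = (c / 2) * |r - t₀| + (M * c₁ * (C₁ * C₀)) * |r - t₀| := by
          field_simp
      _ ≤ (c / 2) * |r - t₀| + (c / 2) * |r - t₀| := by
          have : M * c₁ * (C₁ * C₀) ≤ c / 2 := by
            have h5 : M * c₁ * (C₁ * C₀ + 1) = c / 2 := by
              rw [hc₁]; field_simp
            have h6 : 0 ≤ M * c₁ := by positivity
            nlinarith
          gcongr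
      _ = c * |r - t₀| := by ring
  · intro s hs
    have e1 : HasDerivAt (fun s => Y (γ s)) (fderiv ℝ Y (γ s) (T (γ s))) s := by
      have := (hY1 _ (hγ.mem hs)).hasFDerivAt.comp_hasDerivAt s (hγ.hasDerivAt hs)
      simpa [Function.comp_def] using this
    exact ((hHS.hasDerivAt hs).sub (hγ.hasDerivAt hs)).sub (e1.const_smul (r - t₀))
  · intro s hs
    have hK1 : γ s ∈ γ '' Icc 0 b := mem_image_of_mem γ hs
    have hD := hC₂ (γ s) hK1
    have hTT := (h2 (γ s) hK1 (H r s) ((hlip s hs).trans_lt hr2)).2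
    have hbr' : fderiv ℝ T (γ s) (Y (γ s)) = fderiv ℝ Y (γ s) (T (γ s)) := by
      rw [hγP s hs]; exact hbr t₀ ht₀ s hs
    have e1 : T (H r s) - T (γ s) - (r - t₀) • fderiv ℝ Y (γ s) (T (γ s))
        = fderiv ℝ T (γ s) (H r s - γ s - (r - t₀) • Y (γ s))
          + (T (H r s) - T (γ s) - fderiv ℝ T (γ s) (H r s - γ s)) := by
      rw [← hbr', map_sub (fderiv ℝ T (γ s)) (H r s - γ s), map_smul]
      abel
    rw [e1]
    refine (norm_add_le _ _).trans ?_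
    have e2 : ‖fderiv ℝ T (γ s) (H r s - γ s - (r - t₀) • Y (γ s))‖
        ≤ C₂ * ‖H r s - γ s - (r - t₀) • Y (γ s)‖ :=
      ((fderiv ℝ T (γ s)).le_opNorm _).trans (by gcongr)
    have e3 : ‖T (H r s) - T (γ s) - fderiv ℝ T (γ s) (H r s - γ s)‖
        ≤ c₁ * (C₁ * (C₀ * |r - t₀|)) := by
      refine hTT.trans ?_
      have := hlip s hs
      gcongr
    exact add_le_add e2 e3

end Pool.Agent.helper68.B2
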